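import Pool.Agent.helper19.FG.E5a
import Pool.Agent.Lib.SieveInterval

/-!
# Integers prime to `c` in short configurations, with a power of the logarithm (MP_bf63dc_nt)

`E6_sieve`: there is `A` such that for every `X` there is `K` such that for every `N ≥ 1` prime to `6` more than `16 X` integers `x ≤ K (1 + log N) ^ A` have `6 + 12 x, 8 + 12 x, 9 + 12 x, 12 + 12 x` prime to `N`.
(Brun-Hooley sieve of dimension four for the primes up to a power of `log N`; the other prime factors of `N` are few.)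
-/

set_option autoImplicit false

namespace Pool.Agent.FG

open Finset
open Pool.Agent.Lib.BrunHooley

theorem E6_one (p a : ℕ) (hp : p.Prime) (h6 : ¬ p ∣ 12) : #{c ∈ range p | p ∣ a + 12 * c} ≤ 1 := by
  rw [card_le_one]
  intro c hc c' hc'
  rw [mem_filter, mem_range] at hc hc'
  have h1 : a + 12 * c ≡ a + 12 * c' [MOD p] := ((Nat.modEq_zero_iff_dvd).2 hc.2).trans ((Nat.modEq_zero_iff_dvd).2 hc'.2).symm
  have h2 : 12 * c ≡ 12 * c' [MOD p] := Nat.ModEq.add_left_cancel' a h1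
  have h3 : c ≡ c' [MOD p] := Nat.ModEq.cancel_left_of_coprime ((Nat.Prime.coprime_iff_not_dvd hp).2 h6) h2
  exact Nat.ModEq.eq_of_lt_of_lt h3 hc.1 hc'.1

theorem E6_r (r₀ y : ℕ) (hy : 1 ≤ y) : ∃ r : ℕ, r₀ + 1 ≤ r ∧ y ≤ Z (r - 1) ∧ Z r ≤ Z (r₀ + 2) * y ^ 4 := by
  have hex : ∃ r : ℕ, r₀ + 1 ≤ r ∧ y ≤ Z (r - 1) := by
    refine ⟨r₀ + y + 1, by omega, ?_⟩
    have h1 : y < 2 ^ y := Nat.lt_two_pow_self
    have h2 : 2 ^ y ≤ 2 ^ 2 ^ (r₀ + y + 1 - 1) := by
      refine Nat.pow_le_pow_right (by norm_num) ?_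
      have h3 : r₀ + y < 2 ^ (r₀ + y) := Nat.lt_two_pow_self
      have h4 : r₀ + y + 1 - 1 = r₀ + y := by omega
      rw [h4]
      omega
    unfold Z
    omega
  classical
  obtain ⟨h1, h2⟩ := Nat.find_spec hex
  refine ⟨Nat.find hex, h1, h2, ?_⟩
  obtain ⟨r, hr⟩ : ∃ r, r = Nat.find hex := ⟨_, rfl⟩
  rw [← hr] at h1 h2 ⊢
  rcases Nat.lt_or_ge r (r₀ + 3) with h | h
  · have h3 : Z r ≤ Z (r₀ + 2) := Z_mono (by omega)
    exact h3.trans (Nat.le_mul_of_pos_right _ (by positivity))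
  · have h3 : ¬ (r₀ + 1 ≤ r - 1 ∧ y ≤ Z (r - 1 - 1)) := Nat.find_min hex (by omega)
    have h4 : Z (r - 1 - 1) < y := by
      by_contra hc
      exact h3 ⟨by omega, by omega⟩
    have h5 : Z r = Z (r - 2) ^ 4 := by
      have e1 : r = (r - 2) + 1 + 1 := by omega
      have e2 := Z_succ (r - 2)
      have e3 := Z_succ (r - 2 + 1)
      rw [← e1] at e3
      rw [e3, e2]
      ring
    have h6 : Z (r - 2) < y := by
      have e : r - 2 = r - 1 - 1 := by omega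
      rw [e]
      exact h4
    have h7 : Z r ≤ y ^ 4 := by
      rw [h5]
      exact Nat.pow_le_pow_left h6.le 4
    exact h7.trans (Nat.le_mul_of_pos_left _ (Z_pos _))

/-- the sieve -/
theorem E6_sieve : ∃ A : ℕ, ∀ X : ℕ, ∃ K : ℝ, 0 < K ∧ ∀ N : ℕ, 1 ≤ N → Nat.Coprime N 6 →
    ∃ T : Finset ℕ, 16 * X < #T ∧ ∀ x ∈ T, (x : ℝ) ≤ K * (1 + Real.log N) ^ A ∧ ∀ i : Fin 4, Nat.Coprime N ((![6, 8, 9, 12] : Fin 4 → ℕ) i + 12 * x) := by
  classical
  obtain ⟨B, r₀, hB⟩ := interval_lower 4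
  refine ⟨4 * (B + 1), fun X => ⟨((Z (r₀ + 2) : ℝ) * 128 ^ 4) ^ (B + 1) * (32 * (X + 1)), by have := Z_pos (r₀ + 2); positivity, fun N hN hN6 => ?_⟩⟩
  obtain ⟨w, hw⟩ : ∃ w : ℕ, w = Nat.log 2 N := ⟨_, rfl⟩
  obtain ⟨y, hy⟩ : ∃ y : ℕ, y = 64 * (w + 1) := ⟨_, rfl⟩
  obtain ⟨r, hr1, hr2, hr3⟩ := E6_r r₀ y (by omega)
  obtain ⟨u, hu⟩ : ∃ u : ℕ, u = Z (r - 1) := ⟨_, rfl⟩
  have hz : Z r = u * u := by
    have e := Z_succ (r - 1)
    rw [show r - 1 + 1 = r by omega] at e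
    rw [e, hu]
  obtain ⟨H, hH⟩ : ∃ H : ℕ, H = (Z r) ^ (B + 1) * (32 * (X + 1)) := ⟨_, rfl⟩
  have hu0 : 0 < u := by rw [hu]; exact Z_pos _
  have huy : 64 * (w + 1) ≤ u := by rw [hu, ← hy]; exact hr2
  have hp6 : ∀ p : ℕ, p.Prime → p ∣ N → ¬ p ∣ 6 := by
    intro p hp h1 h2
    exact hp.one_lt.ne' (Nat.eq_one_of_dvd_coprimes hN6 h1 h2)
  have hp12 : ∀ p : ℕ, p.Prime → p ∣ N → ¬ p ∣ 12 := by
    intro p hp h1 h2
    have h5 : p ∣ 6 ^ 2 := h2.trans ⟨3, rfl⟩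
    exact hp6 p hp h1 (hp.dvd_of_dvd_pow h5)
  have hp5 : ∀ p : ℕ, p.Prime → p ∣ N → 5 ≤ p := by
    intro p hp h1
    by_contra h
    have h2 := hp.two_le
    have h3 : p = 2 ∨ p = 3 ∨ p = 4 := by omega
    rcases h3 with rfl | rfl | rfl
    · exact hp6 2 hp h1 (by norm_num)
    · exact hp6 3 hp h1 (by norm_num)
    · exact absurd hp (by norm_num)
  -- the residue classes
  obtain ⟨C, hC⟩ : ∃ C : ℕ → Finset ℕ, ∀ p, C p = if p.Prime ∧ p ∣ N then (univ : Finset (Fin 4)).biUnion (fun i => {c ∈ range p | p ∣ (![6, 8, 9, 12] : Fin 4 → ℕ) i + 12 * c}) else ∅ := ⟨_, fun _ => rfl⟩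
  have hC4 : ∀ p, #(C p) ≤ 4 := by
    intro p
    rw [hC]
    split_ifs with h
    · refine card_biUnion_le.trans ((sum_le_sum fun i _ => E6_one p _ h.1 (hp12 p h.1 h.2)).trans ?_)
      simp
    · simp
  have hClt : ∀ p, p.Prime → ∀ c ∈ C p, c < p := by
    intro p _ c hc
    rw [hC] at hc
    split_ifs at hc with h
    · obtain ⟨i, -, hi⟩ := mem_biUnion.1 hc
      exact mem_range.1 (mem_filter.1 hi).1
    · simp at hc
  have hCp : ∀ p, p.Prime → #(C p) < p := by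
    intro p hp
    by_cases h : p ∣ N
    · have h1 := hp5 p hp h
      have h2 := hC4 p
      omega
    · rw [hC, if_neg (fun h1 => h h1.2)]
      simpa using hp.pos
  have hHB : (Z r) ^ B ≤ H := by
    rw [hH, pow_succ, mul_assoc]
    exact Nat.le_mul_of_pos_right _ (by have := Z_pos r; positivity)
  have hHu : u * u * (32 * (X + 1)) ≤ H := by
    rw [hH, ← hz, pow_succ]
    refine Nat.mul_le_mul_right _ (Nat.le_mul_of_pos_left _ ?_)
    have := Z_pos r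
    positivity
  have h1 := hB r 0 H C (by omega) hClt hC4 hCp hHB
  rw [← hu] at h1
  have h1' : H ≤ u * #(sifted 0 H (Z r) C) := by exact_mod_cast h1
  obtain ⟨G, hG⟩ : ∃ G : Finset ℕ, G = {t ∈ sifted 0 H (Z r) C | ∀ p ∈ N.primeFactors, Z r < p → ∀ i : Fin 4, ¬ p ∣ (![6, 8, 9, 12] : Fin 4 → ℕ) i + 12 * t} := ⟨_, rfl⟩
  have hGc : 16 * X < #G := by
    have h2 : sifted 0 H (Z r) C ⊆ G ∪ (({p ∈ N.primeFactors | 2 ≤ p} : Finset ℕ) ×ˢ (univ : Finset (Fin 4))).biUnion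
        (fun q => if Z r < q.1 then {t ∈ range (H + 1) | q.1 ∣ (![6, 8, 9, 12] : Fin 4 → ℕ) q.2 + 12 * t} else ∅) := by
      intro t ht
      rw [mem_union]
      by_cases h : t ∈ G
      · exact Or.inl h
      · right
        rw [hG, mem_filter] at h
        push Not at h
        obtain ⟨p, hp, hzp, i, hi⟩ := h ht
        rw [mem_biUnion]
        refine ⟨(p, i), mem_product.2 ⟨mem_filter.2 ⟨hp, (Nat.prime_of_mem_primeFactors hp).two_le⟩, mem_univ _⟩, ?_⟩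
        rw [if_pos hzp, mem_filter, mem_range]
        refine ⟨?_, hi⟩
        unfold sifted at ht
        have := (mem_Ioc.1 (mem_filter.1 ht).1).2
        omega
    have h3 := (card_le_card h2).trans (card_union_le _ _)
    have h4 : #((({p ∈ N.primeFactors | 2 ≤ p} : Finset ℕ) ×ˢ (univ : Finset (Fin 4))).biUnion
        (fun q => if Z r < q.1 then {t ∈ range (H + 1) | q.1 ∣ (![6, 8, 9, 12] : Fin 4 → ℕ) q.2 + 12 * t} else ∅)) ≤
        ∑ _q ∈ ({p ∈ N.primeFactors | 2 ≤ p} : Finset ℕ) ×ˢ (univ : Finset (Fin 4)), ((H + 1) / (u * u) + 1) := by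
      refine card_biUnion_le.trans (sum_le_sum fun q hq => ?_)
      split_ifs with hzr
      · have hrp := Nat.prime_of_mem_primeFactors (mem_filter.1 (mem_product.1 hq).1).1
        have hrN := Nat.dvd_of_mem_primeFactors (mem_filter.1 (mem_product.1 hq).1).1
        refine (E5_count q.1 _ 12 (H + 1) hrp (hp12 q.1 hrp hrN)).trans ?_
        have : (H + 1) / q.1 ≤ (H + 1) / (u * u) := Nat.div_le_div_left (by rw [← hz]; exact hzr.le) (by positivity)
        omega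
      · simp
    rw [sum_const, card_product, card_univ, Fintype.card_fin, smul_eq_mul] at h4
    have h5 : #{p ∈ N.primeFactors | 2 ≤ p} ≤ w := by
      rw [hw]
      exact Nat.le_log_of_pow_le (by norm_num) (E5_prod N 2 hN)
    -- numbers
    have h6 : u * u * ((H + 1) / (u * u)) ≤ H + 1 := Nat.mul_div_le _ _
    obtain ⟨v, hv⟩ : ∃ v : ℕ, v = (H + 1) / (u * u) := ⟨_, rfl⟩
    rw [← hv] at h4 h6
    have h7 : #{p ∈ N.primeFactors | 2 ≤ p} * 4 * (v + 1) ≤ w * 4 * (v + 1) := by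
      exact Nat.mul_le_mul_right _ (Nat.mul_le_mul_right _ h5)
    have h8 : #(sifted 0 H (Z r) C) ≤ #G + w * 4 * (v + 1) := by omega
    have h9 : H ≤ u * #G + u * (w * 4 * (v + 1)) := by
      calc H ≤ u * #(sifted 0 H (Z r) C) := h1'
        _ ≤ u * (#G + w * 4 * (v + 1)) := Nat.mul_le_mul_left _ h8
        _ = _ := by ring
    have h10 : 16 * (u * (w * 4 * (v + 1))) ≤ u * u * v + u * u := by
      have e1 : 16 * (u * (w * 4 * (v + 1))) = (u * (v + 1)) * (64 * w) := by ring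
      have e2 : u * u * v + u * u = (u * (v + 1)) * u := by ring
      rw [e1, e2]
      exact Nat.mul_le_mul_left _ (by omega)
    have h11 : u * u ≤ H := (Nat.le_mul_of_pos_right _ (by omega)).trans hHu
    have h12 : u * (32 * (X + 1)) ≤ H := by
      refine le_trans (Nat.mul_le_mul_right _ ?_) hHu
      exact Nat.le_mul_of_pos_left _ hu0
    by_contra hcon
    have h13 : u * #G ≤ u * (16 * X) := Nat.mul_le_mul_left _ (by omega)
    have h14 : u * (32 * (X + 1)) = 2 * (u * (16 * X)) + 32 * u := by ring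
    omega
  refine ⟨G, hGc, fun t ht => ?_⟩
  rw [hG, mem_filter] at ht
  have ht1 := ht.1
  unfold sifted at ht1
  rw [mem_filter, mem_Ioc] at ht1
  refine ⟨?_, fun i => ?_⟩
  · have h2 : (t : ℝ) ≤ H := by exact_mod_cast (by omega : t ≤ H)
    refine h2.trans ?_
    have h3 : (Z r : ℝ) ≤ Z (r₀ + 2) * (y : ℝ) ^ 4 := by exact_mod_cast hr3
    have h4 : (y : ℝ) ≤ 128 * (1 + Real.log N) := by
      rw [hy, hw]
      push_cast
      have h5 : (Nat.log 2 N : ℝ) * Real.log 2 ≤ Real.log N := by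
        have h6 : 2 ^ Nat.log 2 N ≤ N := Nat.pow_log_le_self 2 (by omega)
        have h7 : ((2 : ℝ) ^ Nat.log 2 N) ≤ N := by exact_mod_cast h6
        have h8 := Real.log_le_log (by positivity) h7
        rwa [Real.log_pow] at h8
      have h6 : (1 : ℝ) / 2 ≤ Real.log 2 := by linarith [Real.log_two_gt_d9]
      have h7 : (0 : ℝ) ≤ (Nat.log 2 N : ℝ) := Nat.cast_nonneg _
      nlinarith
    have h5 : (0 : ℝ) ≤ 1 + Real.log N := by
      have : 0 ≤ Real.log N := Real.log_natCast_nonneg N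
      linarith
    have h6 : (H : ℝ) = (Z r : ℝ) ^ (B + 1) * (32 * (X + 1)) := by
      rw [hH]
      push_cast
      ring
    rw [h6]
    calc (Z r : ℝ) ^ (B + 1) * (32 * (X + 1)) ≤ (Z (r₀ + 2) * (128 * (1 + Real.log N)) ^ 4) ^ (B + 1) * (32 * (X + 1)) := by
          gcongr
          exact h3.trans (by gcongr)
      _ = ((Z (r₀ + 2) : ℝ) * 128 ^ 4) ^ (B + 1) * (32 * (X + 1)) * (1 + Real.log N) ^ (4 * (B + 1)) := by
          rw [show (Z (r₀ + 2) : ℝ) * (128 * (1 + Real.log N)) ^ 4 = (Z (r₀ + 2) * 128 ^ 4) * (1 + Real.log N) ^ 4 by ring, mul_pow (_ * _) (_ ^ 4), ← pow_mul]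
          ring
  · refine Nat.coprime_of_dvd (fun p hp h2 h3 => ?_)
    rcases le_or_gt p (Z r) with h4 | h4
    · have h5 := ht1.2 p (Nat.mem_primesLE.2 ⟨h4, hp⟩)
      apply h5
      rw [hC, if_pos ⟨hp, h2⟩, mem_biUnion]
      refine ⟨i, mem_univ _, mem_filter.2 ⟨mem_range.2 (Nat.mod_lt _ hp.pos), ?_⟩⟩
      have h6 : (![6, 8, 9, 12] : Fin 4 → ℕ) i + 12 * (t % p) ≡ (![6, 8, 9, 12] : Fin 4 → ℕ) i + 12 * t [MOD p] :=
        Nat.ModEq.add_left _ (Nat.ModEq.mul_left _ (Nat.mod_modEq t p))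
      exact (Nat.modEq_zero_iff_dvd).1 (h6.trans ((Nat.modEq_zero_iff_dvd).2 h3))
    · exact ht.2 p (Nat.mem_primeFactors.2 ⟨hp, h2, by omega⟩) h4 i h3

end Pool.Agent.FG
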