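import Pool.Agent.helper19.FK.Fin0
import Pool.Agent.helper19.FK.LOS
import Pool.Agent.helper19.FK.CLG
import Pool.Agent.helper8.IT.GEN
import Pool.Agent.helper21.IT.ADF
import Pool.Agent.helper29.IT.GCT
import Pool.Agent.helper43.IT.K4R
import Pool.Agent.helper98.IT.K4C
import Pool.Agent.helper38.AT.All

/-!
# The four integers 6, 8, 9, 12 (MP_bf63dc_nt; idea of helper38)

`E3`: for EVERY `h ≠ 0` and any four positive integers prime to `h` two of them, `s_i ≠ s_j` if they are different, have a quotient `a/b` (in lowest terms) such that more than half of all `c` in every long interval of every class near `h (a - b)` are true for `(a, b)`.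
`E1`: for EVERY `c` prime to 6 one of the equations `2 p - q`, `3 p - 2 q`, `4 p - 3 q`, `9 p - 8 q` has this property near `c`. `E2`: almost every `c` prime to 6 is itself infinitely often of one of these forms.
-/

set_option autoImplicit false

namespace Pool.Agent.FG

open Finset
open Pool.Agent.SK (Dens)
open Pool.Agent.helper85.FC (TrueCase)

theorem E0_adm (h : ℤ) (s : Fin 4 → ℕ) (hsh : ∀ i, IsCoprime (s i : ℤ) h) : Pool.Agent.AT.Adm (fun i : Fin 4 => (s i, h)) := by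
  intro p hp
  by_cases h1 : (p : ℤ) ∣ h
  · refine ⟨1, fun i h2 => ?_⟩
    have h3 : (p : ℤ) ∣ (s i : ℤ) := by
      have h4 := dvd_sub h2 h1
      simpa using h4
    exact (Nat.prime_iff_prime_int.mp hp).not_isUnit ((hsh i).isUnit_of_dvd' h3 h1)
  · exact ⟨0, fun i h2 => h1 (by simpa using h2)⟩

/-- of four positive integers prime to `h` two have a good quotient near `h (a - b)`, in both orders -/
theorem E0_pair (h : ℤ) (s : Fin 4 → ℕ) (hs : ∀ i, 0 < s i) (hsh : ∀ i, IsCoprime (s i : ℤ) h) :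
    ∃ i j : Fin 4, i ≠ j ∧ (∀ a b : ℕ, Nat.Coprime a b → a * s i = b * s j → Dens (1 / 2 + 3 / 10 ^ 6) a b (h * (a - b))) ∧
      (∀ a b : ℕ, Nat.Coprime a b → a * s j = b * s i → Dens (1 / 2 + 3 / 10 ^ 6) a b (h * (a - b))) := by
  obtain ⟨η, hη⟩ : ∃ η : ℝ, η = 1 / 2 + 3 / 10 ^ 6 := ⟨_, rfl⟩
  have h0 := Pool.Agent.FK.four_forms Pool.Agent.FK.CLG Pool.Agent.FK.LOS (fun i => (s i, h)) hs (E0_adm h s hsh)
  rw [← hη] at h0 ⊢
  obtain ⟨I, hI, hI2⟩ := h0
  have hI1 : 1 < I.card := by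
    norm_num at hI
    exact hI
  obtain ⟨x, hx, y, hy, hxy⟩ := one_lt_card.1 hI1
  have key : ∀ i ∈ I, ∀ j ∈ I, i ≠ j → ∀ a b : ℕ, Nat.Coprime a b → a * s i = b * s j → Dens η a b (h * (a - b)) := by
    intro i hi j hj hij a b hab hsab
    have h3 := hI2 i hi j hj hij
    dsimp only at h3
    obtain ⟨d, hd⟩ : ∃ d : ℕ, d = Nat.gcd (s i) (s j) := ⟨_, rfl⟩
    have hd0 : 0 < d := by rw [hd]; exact Nat.gcd_pos_of_pos_left _ (hs i)
    obtain ⟨x, hx⟩ : d ∣ s i := by rw [hd]; exact Nat.gcd_dvd_left _ _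
    obtain ⟨y, hy⟩ : d ∣ s j := by rw [hd]; exact Nat.gcd_dvd_right _ _
    have hxy : Nat.Coprime x y := by
      have h4 : Nat.gcd (d * x) (d * y) = d := by rw [← hx, ← hy]; exact hd.symm
      rw [Nat.gcd_mul_left] at h4
      exact Nat.eq_of_mul_eq_mul_left hd0 (by rw [mul_one]; exact h4)
    have hy0 : 0 < y := Nat.pos_of_ne_zero fun h0 => by
      have := hs j
      rw [hy, h0, mul_zero] at this
      omega
    have h5 : a * x = b * y := by
      apply Nat.eq_of_mul_eq_mul_left hd0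
      calc d * (a * x) = a * (d * x) := by ring
        _ = b * (d * y) := by rw [← hx, ← hy]; exact hsab
        _ = d * (b * y) := by ring
    have h6 : a = y := by
      apply Nat.dvd_antisymm
      · exact hab.dvd_of_dvd_mul_left ⟨x, h5.symm⟩
      · exact hxy.symm.dvd_of_dvd_mul_right ⟨b, by rw [h5]; ring⟩
    have h7 : b = x := by
      rw [h6] at h5
      exact Nat.eq_of_mul_eq_mul_right hy0 (by rw [← h5]; ring)
    have h8 : s j / Nat.gcd (s i) (s j) = a := by
      rw [← hd, hy, h6]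
      exact Nat.mul_div_cancel_left _ hd0
    have h9 : s i / Nat.gcd (s i) (s j) = b := by
      rw [← hd, hx, h7]
      exact Nat.mul_div_cancel_left _ hd0
    rw [h8, h9] at h3
    have e : h * ((a : ℤ) - b) = (a : ℤ) * h - (b : ℤ) * h := by ring
    rw [e]
    exact h3
  exact ⟨x, y, hxy, key x hx y hy hxy, key y hy x hx hxy.symm⟩

/-- **E3.** -/
theorem E3 (h : ℤ) (s : Fin 4 → ℕ) (hs : ∀ i, 0 < s i) (hinj : Function.Injective s) (hsh : ∀ i, IsCoprime (s i : ℤ) h) :
    ∃ i j : Fin 4, s i < s j ∧ ∀ a b : ℕ, Nat.Coprime a b → a * s i = b * s j → Dens (1 / 2 + 3 / 10 ^ 6) a b (h * (a - b)) := by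
  obtain ⟨i, j, hij, h1, h2⟩ := E0_pair h s hs hsh
  rcases lt_or_gt_of_ne (fun h0 => hij (hinj h0)) with h3 | h3
  · exact ⟨i, j, h3, h1⟩
  · exact ⟨j, i, h3, h2⟩

/-- **E1.** -/
theorem E1 (c : ℤ) (hc : IsCoprime (6 : ℤ) c) :
    Dens (1 / 2 + 3 / 10 ^ 6) 2 1 c ∨ Dens (1 / 2 + 3 / 10 ^ 6) 3 2 c ∨ Dens (1 / 2 + 3 / 10 ^ 6) 4 3 c ∨ Dens (1 / 2 + 3 / 10 ^ 6) 9 8 c := by
  have hc2 : IsCoprime (2 : ℤ) c := by
    have h1 : IsCoprime ((2 : ℤ) * 3) c := by norm_num; exact hc
    exact h1.of_mul_left_left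
  have hc3 : IsCoprime (3 : ℤ) c := by
    have h1 : IsCoprime ((2 : ℤ) * 3) c := by norm_num; exact hc
    exact h1.of_mul_left_right
  obtain ⟨i, j, hij, h1⟩ := E3 c ![6, 8, 9, 12] (by intro i; fin_cases i <;> simp) (by
    intro i j hij
    fin_cases i <;> fin_cases j <;> simp_all) (by
    intro i
    fin_cases i
    · show IsCoprime (((6 : ℕ) : ℤ)) c
      exact_mod_cast hc
    · show IsCoprime (((8 : ℕ) : ℤ)) c
      have h2 : IsCoprime ((2 : ℤ) ^ 3) c := hc2.pow_left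
      norm_num at h2 ⊢
      exact h2
    · show IsCoprime (((9 : ℕ) : ℤ)) c
      have h2 : IsCoprime ((3 : ℤ) ^ 2) c := hc3.pow_left
      norm_num at h2 ⊢
      exact h2
    · show IsCoprime (((12 : ℕ) : ℤ)) c
      have h2 : IsCoprime ((2 : ℤ) ^ 2 * 3) c := (hc2.pow_left).mul_left hc3
      norm_num at h2 ⊢
      exact h2)
  have key : ∀ a b : ℕ, (a : ℤ) = b + 1 → Dens (1 / 2 + 3 / 10 ^ 6) a b (c * (a - b)) → Dens (1 / 2 + 3 / 10 ^ 6) a b c := by
    intro a b hab h2
    have e : c * ((a : ℤ) - b) = c := by rw [hab]; ring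
    rw [e] at h2
    exact h2
  have hlt := hij
  fin_cases i <;> fin_cases j
  · exact absurd hlt (by decide)
  · exact Or.inr (Or.inr (Or.inl (key 4 3 (by norm_num) (h1 4 3 (by norm_num) (by norm_num)))))
  · exact Or.inr (Or.inl (key 3 2 (by norm_num) (h1 3 2 (by norm_num) (by norm_num))))
  · exact Or.inl (key 2 1 (by norm_num) (h1 2 1 (by norm_num) (by norm_num)))
  · exact absurd hlt (by decide)
  · exact absurd hlt (by decide)
  · exact Or.inr (Or.inr (Or.inr (key 9 8 (by norm_num) (h1 9 8 (by norm_num) (by norm_num)))))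
  · exact Or.inr (Or.inl (key 3 2 (by norm_num) (h1 3 2 (by norm_num) (by norm_num))))
  · exact absurd hlt (by decide)
  · exact absurd hlt (by decide)
  · exact absurd hlt (by decide)
  · exact Or.inr (Or.inr (Or.inl (key 4 3 (by norm_num) (h1 4 3 (by norm_num) (by norm_num)))))
  · exact absurd hlt (by decide)
  · exact absurd hlt (by decide)
  · exact absurd hlt (by decide)
  · exact absurd hlt (by decide)

theorem E0_swap {a b : ℕ} {c : ℤ} (h : TrueCase a b c) : TrueCase b a (-c) := by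
  obtain ⟨h1, h2, h3, h4, h5, h6, h7, h8⟩ := h
  refine ⟨h2, h1, neg_ne_zero.2 h3, h4.symm, h6.neg_right, h5.neg_right, fun h => h7 ⟨h.2.1, h.1, by simpa using h.2.2⟩, ?_⟩
  have h9 := h8.image (f := Prod.swap) Prod.swap_injective.injOn
  refine h9.mono ?_
  rintro _ ⟨⟨p, q⟩, ⟨hp, hq, he⟩, rfl⟩
  refine ⟨hq, hp, ?_⟩
  dsimp only [Prod.swap] at he ⊢
  linarith

theorem E0_red (x y g a b : ℕ) (c : ℤ) (hg : 0 < g) (hxy : Nat.gcd x y = g) (hx : x = g * b) (hy : y = g * a)
    (h : Pool.Agent.AT.Pair (x, (1 : ℤ) * c + 0) (y, (1 : ℤ) * c + 0)) : TrueCase a b (c * (a - b)) := by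
  unfold Pool.Agent.AT.Pair at h
  dsimp only at h
  rw [hxy] at h
  have e1 : y / g = a := by rw [hy]; exact Nat.mul_div_cancel_left _ hg
  have e2 : x / g = b := by rw [hx]; exact Nat.mul_div_cancel_left _ hg
  have e3 : ((y : ℤ) * (1 * c + 0) - (x : ℤ) * (1 * c + 0)) / (g : ℤ) = c * (a - b) := by
    have hg0 : (g : ℤ) ≠ 0 := by positivity
    rw [hx, hy]
    push_cast
    have e4 : (g : ℤ) * a * (1 * c + 0) - g * b * (1 * c + 0) = g * (c * (a - b)) := by ring
    rw [e4, Int.mul_ediv_cancel_left _ hg0]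
  rw [e1, e2, e3] at h
  exact h

/-- **E2.** -/
theorem E2 (ε : ℝ) (hε : 0 < ε) : ∃ M₀ : ℕ, ∀ M : ℕ, M₀ ≤ M → ∀ u : ℤ,
    ({c : ℤ | (u < c ∧ c ≤ u + M) ∧ IsCoprime (6 : ℤ) c ∧ ¬ (TrueCase 2 1 c ∨ TrueCase 3 2 c ∨ TrueCase 4 3 c ∨ TrueCase 9 8 c)}.ncard : ℝ) ≤ ε * M := by
  classical
  obtain ⟨M₀, h1⟩ := Pool.Agent.IT.GEN (Pool.Agent.IT.GCT (Pool.Agent.IT.K4R Pool.Agent.IT.K4C)) Pool.Agent.IT.ADF Pool.Agent.AT.QPc_all ![6, 8, 9, 12] (fun _ => 1) (fun _ => 0)
    (by intro i; fin_cases i <;> simp) (by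
      intro i j hij
      fin_cases i <;> fin_cases j <;> simp_all) ε hε
  refine ⟨M₀, fun M hM u => ?_⟩
  refine le_trans ?_ (h1 M hM u)
  rw [← Set.ncard_coe_finset]
  refine Nat.cast_le.2 (Set.ncard_le_ncard ?_ (finite_toSet _))
  rintro c ⟨hcu, hc, hcn⟩
  rw [mem_coe, mem_filter, mem_Ioc]
  refine ⟨hcu, ?_, ?_⟩
  · have hc2 : IsCoprime (2 : ℤ) c := by
      have h1 : IsCoprime ((2 : ℤ) * 3) c := by norm_num; exact hc
      exact h1.of_mul_left_left
    have hc3 : IsCoprime (3 : ℤ) c := by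
      have h1 : IsCoprime ((2 : ℤ) * 3) c := by norm_num; exact hc
      exact h1.of_mul_left_right
    have h2 := E0_adm c ![6, 8, 9, 12] (by
      intro i
      fin_cases i
      · show IsCoprime (((6 : ℕ) : ℤ)) c
        exact_mod_cast hc
      · show IsCoprime (((8 : ℕ) : ℤ)) c
        have h2 : IsCoprime ((2 : ℤ) ^ 3) c := hc2.pow_left
        norm_num at h2 ⊢
        exact h2
      · show IsCoprime (((9 : ℕ) : ℤ)) c
        have h2 : IsCoprime ((3 : ℤ) ^ 2) c := hc3.pow_left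
        norm_num at h2 ⊢
        exact h2
      · show IsCoprime (((12 : ℕ) : ℤ)) c
        have h2 : IsCoprime ((2 : ℤ) ^ 2 * 3) c := (hc2.pow_left).mul_left hc3
        norm_num at h2 ⊢
        exact h2)
    have e : (fun i : Fin 4 => ((![6, 8, 9, 12] : Fin 4 → ℕ) i, (1 : ℤ) * c + 0)) = fun i => ((![6, 8, 9, 12] : Fin 4 → ℕ) i, c) := by
      funext i
      rw [one_mul, add_zero]
    rw [e]
    exact h2
  · intro i j hij hP
    apply hcn
    have k1 : ∀ a b : ℕ, (a : ℤ) = b + 1 → TrueCase a b (c * (a - b)) → TrueCase a b c := by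
      intro a b hab h2
      have e : c * ((a : ℤ) - b) = c := by rw [hab]; ring
      rw [e] at h2
      exact h2
    have k2 : ∀ a b : ℕ, (b : ℤ) = a + 1 → TrueCase a b (c * (a - b)) → TrueCase b a c := by
      intro a b hab h2
      have e : c * ((a : ℤ) - b) = -c := by rw [hab]; ring
      rw [e] at h2
      have h3 := E0_swap h2
      rw [neg_neg] at h3
      exact h3
    fin_cases i <;> fin_cases j
    · exact absurd rfl hij
    · exact Or.inr (Or.inr (Or.inl (k1 4 3 (by norm_num) (E0_red 6 8 2 4 3 c (by norm_num) (by norm_num) (by norm_num) (by norm_num) hP))))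
    · exact Or.inr (Or.inl (k1 3 2 (by norm_num) (E0_red 6 9 3 3 2 c (by norm_num) (by norm_num) (by norm_num) (by norm_num) hP)))
    · exact Or.inl (k1 2 1 (by norm_num) (E0_red 6 12 6 2 1 c (by norm_num) (by norm_num) (by norm_num) (by norm_num) hP))
    · exact Or.inr (Or.inr (Or.inl (k2 3 4 (by norm_num) (E0_red 8 6 2 3 4 c (by norm_num) (by norm_num) (by norm_num) (by norm_num) hP))))
    · exact absurd rfl hij
    · exact Or.inr (Or.inr (Or.inr (k1 9 8 (by norm_num) (E0_red 8 9 1 9 8 c (by norm_num) (by norm_num) (by norm_num) (by norm_num) hP))))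
    · exact Or.inr (Or.inl (k1 3 2 (by norm_num) (E0_red 8 12 4 3 2 c (by norm_num) (by norm_num) (by norm_num) (by norm_num) hP)))
    · exact Or.inr (Or.inl (k2 2 3 (by norm_num) (E0_red 9 6 3 2 3 c (by norm_num) (by norm_num) (by norm_num) (by norm_num) hP)))
    · exact Or.inr (Or.inr (Or.inr (k2 8 9 (by norm_num) (E0_red 9 8 1 8 9 c (by norm_num) (by norm_num) (by norm_num) (by norm_num) hP))))
    · exact absurd rfl hij
    · exact Or.inr (Or.inr (Or.inl (k1 4 3 (by norm_num) (E0_red 9 12 3 4 3 c (by norm_num) (by norm_num) (by norm_num) (by norm_num) hP))))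
    · exact Or.inl (k2 1 2 (by norm_num) (E0_red 12 6 6 1 2 c (by norm_num) (by norm_num) (by norm_num) (by norm_num) hP))
    · exact Or.inr (Or.inl (k2 2 3 (by norm_num) (E0_red 12 8 4 2 3 c (by norm_num) (by norm_num) (by norm_num) (by norm_num) hP)))
    · exact Or.inr (Or.inr (Or.inl (k2 3 4 (by norm_num) (E0_red 12 9 3 3 4 c (by norm_num) (by norm_num) (by norm_num) (by norm_num) hP))))
    · exact absurd rfl hij

end Pool.Agent.FG
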