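import Mathlib

/-!
# Integers prime to `c` in short configurations (MP_bf63dc_nt)

`E5_sieve`: for `δ > 0` and `X` there is `K` such that for every `N ≥ 1` prime to `6` more than `16 X` integers `x ≤ K N ^ δ` have `6 + 12 x, 8 + 12 x, 9 + 12 x, 12 + 12 x` prime to `N`.
-/

set_option autoImplicit false

namespace Pool.Agent.FG

open Finset

theorem E5_prod (N P : ℕ) (hN : 1 ≤ N) : P ^ #{p ∈ N.primeFactors | P ≤ p} ≤ N := by
  have h1 : P ^ #{p ∈ N.primeFactors | P ≤ p} ≤ ∏ p ∈ N.primeFactors with P ≤ p, p := by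
    rw [← Finset.prod_const]
    exact Finset.prod_le_prod' fun p hp => (mem_filter.1 hp).2
  have h2 : ∏ p ∈ N.primeFactors with P ≤ p, p ∣ ∏ p ∈ N.primeFactors, p := Finset.prod_dvd_prod_of_subset _ _ _ (filter_subset _ _)
  exact h1.trans (Nat.le_of_dvd hN (h2.trans (Nat.prod_primeFactors_dvd N)))

theorem E5_count (p a m T : ℕ) (hp : p.Prime) (hm : ¬ p ∣ m) : #{t ∈ range T | p ∣ a + m * t} ≤ T / p + 1 := by
  rcases ({t ∈ range T | p ∣ a + m * t} : Finset ℕ).eq_empty_or_nonempty with h | ⟨t₀, ht₀⟩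
  · rw [h]
    simp
  have hsub : ({t ∈ range T | p ∣ a + m * t} : Finset ℕ) ⊆ {t ∈ range T | t ≡ t₀ [MOD p]} := by
    intro t ht
    rw [mem_filter] at ht ht₀ ⊢
    refine ⟨ht.1, ?_⟩
    have h1 : a + m * t ≡ a + m * t₀ [MOD p] := ((Nat.modEq_zero_iff_dvd).2 ht.2).trans ((Nat.modEq_zero_iff_dvd).2 ht₀.2).symm
    have h2 : m * t ≡ m * t₀ [MOD p] := Nat.ModEq.add_left_cancel' a h1
    exact Nat.ModEq.cancel_left_of_coprime ((Nat.Prime.coprime_iff_not_dvd hp).2 hm) h2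
  refine (card_le_card hsub).trans ?_
  have h3 : #{t ∈ range T | t ≡ t₀ [MOD p]} = Nat.count (· ≡ t₀ [MOD p]) T := by
    rw [Nat.count_eq_card_filter_range]
  rw [h3, Nat.count_modEq_card T hp.pos]
  split_ifs <;> omega

theorem E5_six : ∀ i : Fin 4, (![6, 8, 9, 12] : Fin 4 → ℕ) i ∣ 6 ^ 3 := by
  intro i
  fin_cases i
  · exact ⟨36, rfl⟩
  · exact ⟨27, rfl⟩
  · exact ⟨24, rfl⟩
  · exact ⟨18, rfl⟩

/-- the sieve -/
theorem E5_sieve (δ : ℝ) (hδ : 0 < δ) (X : ℕ) : ∃ K : ℝ, 0 < K ∧ ∀ N : ℕ, 1 ≤ N → Nat.Coprime N 6 →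
    ∃ T : Finset ℕ, 16 * X < #T ∧ ∀ x ∈ T, (x : ℝ) ≤ K * (N : ℝ) ^ δ ∧ ∀ i : Fin 4, Nat.Coprime N ((![6, 8, 9, 12] : Fin 4 → ℕ) i + 12 * x) := by
  classical
  obtain ⟨P, hP⟩ : ∃ P : ℕ, ((2 : ℝ) ^ 33) ^ (1 / δ) ≤ P := exists_nat_ge _
  have hP1 : (2 : ℝ) ^ 33 ≤ (P : ℝ) ^ δ := by
    have h1 : (((2 : ℝ) ^ 33) ^ (1 / δ)) ^ δ ≤ (P : ℝ) ^ δ := Real.rpow_le_rpow (by positivity) hP hδ.le
    rwa [← Real.rpow_mul (by positivity), one_div, inv_mul_cancel₀ hδ.ne', Real.rpow_one] at h1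
  refine ⟨4 ^ (P + 16) * (32 * X + 10), by positivity, fun N hN hN6 => ?_⟩
  obtain ⟨w, hw⟩ : ∃ w : ℕ, w = #{p ∈ N.primeFactors | P ≤ p} := ⟨_, rfl⟩
  obtain ⟨z, hz⟩ : ∃ z : ℕ, z = P + 16 * w + 16 := ⟨_, rfl⟩
  obtain ⟨q, hq⟩ : ∃ q : ℕ, q = primorial z := ⟨_, rfl⟩
  obtain ⟨T₀, hT₀⟩ : ∃ T₀ : ℕ, T₀ = 32 * X + 8 * w + 2 := ⟨_, rfl⟩
  have hq0 : 0 < q := by rw [hq]; exact primorial_pos z
  have hp6 : ∀ p : ℕ, p.Prime → p ∣ N → ¬ p ∣ 6 := by
    intro p hp h1 h2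
    exact hp.one_lt.ne' (Nat.eq_one_of_dvd_coprimes hN6 h1 h2)
  have hqd : ∀ p : ℕ, p.Prime → (p ∣ q ↔ p ≤ z) := by
    intro p hp
    rw [hq]
    unfold primorial
    constructor
    · intro h
      obtain ⟨r, hr, h1⟩ := (Prime.dvd_finsetProd_iff hp.prime _).1 h
      rw [mem_filter, mem_range] at hr
      rw [(Nat.prime_dvd_prime_iff_eq hp hr.2).1 h1]
      omega
    · intro h
      exact Finset.dvd_prod_of_mem (fun r => r) (mem_filter.2 ⟨mem_range.2 (by omega), hp⟩)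
  obtain ⟨G, hG⟩ : ∃ G : Finset ℕ, G = {t ∈ range T₀ | ∀ p ∈ N.primeFactors, z < p → ∀ i : Fin 4, ¬ p ∣ (![6, 8, 9, 12] : Fin 4 → ℕ) i + 12 * q * t} := ⟨_, rfl⟩
  have hGc : 16 * X < #G := by
    have h1 : range T₀ ⊆ G ∪ (({p ∈ N.primeFactors | P ≤ p} : Finset ℕ) ×ˢ (univ : Finset (Fin 4))).biUnion
        (fun r => if z < r.1 then {t ∈ range T₀ | r.1 ∣ (![6, 8, 9, 12] : Fin 4 → ℕ) r.2 + 12 * q * t} else ∅) := by
      intro t ht
      rw [mem_union]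
      by_cases h : t ∈ G
      · exact Or.inl h
      · right
        rw [hG, mem_filter] at h
        push Not at h
        obtain ⟨p, hp, hzp, i, hi⟩ := h ht
        rw [mem_biUnion]
        refine ⟨(p, i), mem_product.2 ⟨mem_filter.2 ⟨hp, by omega⟩, mem_univ _⟩, ?_⟩
        rw [if_pos hzp, mem_filter]
        exact ⟨ht, hi⟩
    have h2 := (card_le_card h1).trans (card_union_le _ _)
    have h3 : #((({p ∈ N.primeFactors | P ≤ p} : Finset ℕ) ×ˢ (univ : Finset (Fin 4))).biUnion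
        (fun r => if z < r.1 then {t ∈ range T₀ | r.1 ∣ (![6, 8, 9, 12] : Fin 4 → ℕ) r.2 + 12 * q * t} else ∅)) ≤
        ∑ _r ∈ ({p ∈ N.primeFactors | P ≤ p} : Finset ℕ) ×ˢ (univ : Finset (Fin 4)), (T₀ / z + 1) := by
      refine card_biUnion_le.trans (sum_le_sum fun r hr => ?_)
      split_ifs with hzr
      · have hrp := Nat.prime_of_mem_primeFactors (mem_filter.1 (mem_product.1 hr).1).1
        have hrN := Nat.dvd_of_mem_primeFactors (mem_filter.1 (mem_product.1 hr).1).1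
        refine (E5_count r.1 _ (12 * q) T₀ hrp ?_).trans ?_
        · intro h
          rcases (Nat.Prime.dvd_mul hrp).1 h with h4 | h4
          · have h5 : r.1 ∣ 6 ^ 2 := h4.trans ⟨3, rfl⟩
            exact hp6 r.1 hrp hrN (hrp.dvd_of_dvd_pow h5)
          · have := (hqd r.1 hrp).1 h4
            omega
        · have : T₀ / r.1 ≤ T₀ / z := Nat.div_le_div_left hzr.le (by omega)
          omega
      · simp
    rw [sum_const, card_product, card_univ, Fintype.card_fin, ← hw, smul_eq_mul] at h3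
    rw [card_range] at h2
    have h4 : z * (T₀ / z) ≤ T₀ := Nat.mul_div_le T₀ z
    have h5 : 16 * w * (T₀ / z) ≤ z * (T₀ / z) := Nat.mul_le_mul_right _ (by omega)
    have h6 : 4 * (w * 4 * (T₀ / z + 1)) = 16 * w * (T₀ / z) + 16 * w := by ring
    omega
  refine ⟨G.image (fun t => q * t), ?_, ?_⟩
  · rw [card_image_of_injective _ (fun a b h => Nat.eq_of_mul_eq_mul_left hq0 h)]
    exact hGc
  · intro x hx
    obtain ⟨t, ht, rfl⟩ := mem_image.1 hx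
    rw [hG, mem_filter, mem_range] at ht
    refine ⟨?_, fun i => ?_⟩
    · have h1 : q ≤ 4 ^ z := by rw [hq]; exact primorial_le_four_pow z
      have h2 : T₀ ≤ (32 * X + 10) * 2 ^ w := by
        have h3 : w < 2 ^ w := Nat.lt_two_pow_self
        have h4 : 32 * X * 1 ≤ 32 * X * 2 ^ w := Nat.mul_le_mul_left _ Nat.one_le_two_pow
        have h5 : (32 * X + 10) * 2 ^ w = 32 * X * 2 ^ w + 10 * 2 ^ w := by ring
        omega
      have h3 : q * t ≤ 4 ^ z * ((32 * X + 10) * 2 ^ w) := Nat.mul_le_mul h1 (by omega)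
      have h4 : ((q * t : ℕ) : ℝ) ≤ 4 ^ z * ((32 * X + 10) * 2 ^ w) := by exact_mod_cast h3
      refine h4.trans ?_
      have h5 : (4 : ℝ) ^ z * ((32 * X + 10) * 2 ^ w) = 4 ^ (P + 16) * (32 * X + 10) * ((2 : ℝ) ^ 33) ^ w := by
        rw [hz]
        have e1 : P + 16 * w + 16 = (P + 16) + 16 * w := by ring
        rw [e1, pow_add (4 : ℝ) (P + 16) (16 * w), pow_mul (4 : ℝ) 16 w]
        have e2 : ((2 : ℝ) ^ 33) ^ w = ((4 : ℝ) ^ 16) ^ w * 2 ^ w := by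
          rw [← mul_pow]
          norm_num
        rw [e2]
        ring
      rw [h5]
      refine mul_le_mul_of_nonneg_left ?_ (by positivity)
      have h6 : P ^ w ≤ N := by rw [hw]; exact E5_prod N P hN
      calc ((2 : ℝ) ^ 33) ^ w ≤ ((P : ℝ) ^ δ) ^ w := pow_le_pow_left₀ (by positivity) hP1 w
        _ = ((P : ℝ) ^ w) ^ δ := by
          rw [← Real.rpow_natCast, ← Real.rpow_natCast, ← Real.rpow_mul (Nat.cast_nonneg _), ← Real.rpow_mul (Nat.cast_nonneg _), mul_comm]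
        _ ≤ (N : ℝ) ^ δ := Real.rpow_le_rpow (by positivity) (by exact_mod_cast h6) hδ.le
    · refine Nat.coprime_of_dvd (fun p hp h1 h2 => ?_)
      rcases le_or_gt p z with h3 | h3
      · have h4 : p ∣ 12 * (q * t) := Dvd.dvd.mul_left (Dvd.dvd.mul_right ((hqd p hp).2 h3) t) 12
        have h5 : p ∣ (![6, 8, 9, 12] : Fin 4 → ℕ) i := (Nat.dvd_add_left h4).1 h2
        exact hp6 p hp h1 (hp.dvd_of_dvd_pow (h5.trans (E5_six i)))
      · refine ht.2 p (Nat.mem_primeFactors.2 ⟨hp, h1, by omega⟩) h3 i ?_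
        rw [mul_assoc]
        exact h2

end Pool.Agent.FG
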