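import Pool.Agent.helper19.FG.E4
import Pool.Agent.helper19.FG.E5a

/-!
# Consecutive coefficients, small (MP_bf63dc_nt)

`E5`: for every `ε > 0` there is an absolute `K` such that for EVERY `c` prime to 6 some equation `(n + 1) p - n q = c'`, `1 ≤ n ≤ K |c| ^ ε`, is true for at least `1 - ε` of all `c'` in every long interval of every class near `c`.
As `E4`, with integers `6 + 12 x, 8 + 12 x, 9 + 12 x, 12 + 12 x` prime to `c` and `x ≤ K |c| ^ ε` (`E5_sieve`).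
-/

set_option autoImplicit false

namespace Pool.Agent.FG

open Finset
open Pool.Agent.FP (rd)
open Pool.Agent.IT (Ad)
open Pool.Agent.SK (Dens)

/-- **E5.** -/
theorem E5 (hF : FGC_stmt) (ε : ℝ) (hε : 0 < ε) : ∃ K : ℝ, ∀ c : ℤ, IsCoprime c 6 → ∃ n : ℕ, 1 ≤ n ∧ (n : ℝ) ≤ K * |(c : ℝ)| ^ ε ∧ Dens (1 - ε) (n + 1) n c := by
  classical
  obtain ⟨C, hC, h1⟩ := FG4_of hF
  have hε' : 0 < min ε 1 := lt_min hε one_pos
  obtain ⟨K₀, h2⟩ := h1 (min ε 1) hε' (min_le_right _ _)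
  obtain ⟨X, hX⟩ := exists_nat_gt (C / (min ε 1) ^ 4)
  obtain ⟨K, hK, h0⟩ := E5_sieve ε hε X
  refine ⟨12 + 12 * K, fun c hc => ?_⟩
  have hc0 : c ≠ 0 := by
    rintro rfl
    rw [isCoprime_zero_left] at hc
    exact absurd hc (by decide)
  have hc1 : 1 ≤ c.natAbs := Nat.pos_of_ne_zero (Int.natAbs_ne_zero.2 hc0)
  obtain ⟨E, hE, h3⟩ := h2 c 1 1 hc0 le_rfl le_rfl (by push_cast; exact isCoprime_one_right)
  have hEX : #E ≤ X := by
    have : (#E : ℝ) ≤ X := hE.trans hX.le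
    exact_mod_cast this
  -- the integers
  have hc6 : Nat.Coprime c.natAbs 6 := by
    rw [Int.isCoprime_iff_gcd_eq_one] at hc
    exact hc
  obtain ⟨T, hT, h00⟩ := h0 c.natAbs hc1 hc6
  obtain ⟨s, hs⟩ : ∃ s : ℕ → Fin 4 → ℕ, ∀ t i, s t i = (![6, 8, 9, 12] : Fin 4 → ℕ) i + 12 * t := ⟨_, fun _ _ => rfl⟩
  have hpair : ∀ t, ∀ i j : Fin 4, i < j → ∃ g m : ℕ, 0 < g ∧ g ≤ 6 ∧ 1 ≤ m ∧ s t i = g * m ∧ s t j = g * (m + 1) := by
    intro t i j hij
    rw [hs, hs]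
    exact E4_pairs _ i j hij
  have hcop : ∀ t ∈ T, ∀ i, IsCoprime c ((s t i : ℕ) : ℤ) := by
    intro t ht i
    rw [hs, Int.isCoprime_iff_gcd_eq_one]
    exact (h00 t ht).2 i
  have h12 : ∀ i : Fin 4, 1 ≤ (![6, 8, 9, 12] : Fin 4 → ℕ) i ∧ (![6, 8, 9, 12] : Fin 4 → ℕ) i ≤ 12 := by decide
  have hinj0 : Function.Injective (![6, 8, 9, 12] : Fin 4 → ℕ) := by decide
  have hrd : ∀ t ∈ T, ∀ i j : Fin 4, i < j → ∃ g m : ℕ, 0 < g ∧ 1 ≤ m ∧ s t i = g * m ∧ s t j = g * m + g ∧ Nat.Coprime (m + 1) m ∧ IsCoprime c ((m : ℕ) : ℤ) ∧ IsCoprime c ((m + 1 : ℕ) : ℤ) ∧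
      rd (s t i) (s t j) = (m + 1, m) ∧ rd (s t j) (s t i) = (m, m + 1) := by
    intro t htT i j hij
    obtain ⟨g, m, hg, -, hm, h5, h6⟩ := hpair t i j hij
    have h7 := hcop t htT i
    have h8 := hcop t htT j
    rw [h5, Nat.cast_mul] at h7
    rw [h6, Nat.cast_mul] at h8
    refine ⟨g, m, hg, hm, h5, by rw [h6]; ring, ?_, h7.of_mul_right_right, h8.of_mul_right_right, ?_, ?_⟩
    · rw [Nat.coprime_comm]
      exact Nat.coprime_self_add_right.2 (Nat.coprime_one_right m)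
    · rw [h5, h6]; exact (E4_rd g m hg).1
    · rw [h5, h6]; exact (E4_rd g m hg).2
  -- the ratios determine `t`
  have hinj : ∀ i j : Fin 4, i ≠ j → ∀ t ∈ T, ∀ t' ∈ T, rd (s t i) (s t j) = rd (s t' i) (s t' j) → t = t' := by
    have hc' : ∀ i j : Fin 4, i < j → ∀ t ∈ T, ∀ t' ∈ T, rd (s t i) (s t j) = rd (s t' i) (s t' j) ∨ rd (s t j) (s t i) = rd (s t' j) (s t' i) → t = t' := by
      intro i j hij t htT t' htT' h
      obtain ⟨g, m, hg, hm, h5, h6, -, -, -, h7, h8⟩ := hrd t htT i j hij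
      obtain ⟨g', m', hg', hm', h5', h6', -, -, -, h7', h8'⟩ := hrd t' htT' i j hij
      have hmm : m = m' := by
        rcases h with h | h
        · rw [h7, h7'] at h
          exact (Prod.mk.inj h).2
        · rw [h8, h8'] at h
          exact (Prod.mk.inj h).1
      have e1 := hs t i
      have e2 := hs t j
      have e3 := hs t' i
      have e4 := hs t' j
      have hgg : g = g' := by omega
      have e6 : s t i = s t' i := by rw [h5, h5', hmm, hgg]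
      omega
    intro i j hij t htT t' htT' h
    rcases lt_or_gt_of_ne hij with h9 | h9
    · exact hc' i j h9 t htT t' htT' (Or.inl h)
    · exact hc' j i h9 t htT t' htT' (Or.inr h)
  -- an unexceptional `t`
  obtain ⟨t, htX, ht⟩ : ∃ t : ℕ, t ∈ T ∧ ∀ i j : Fin 4, i ≠ j → rd (s t i) (s t j) ∉ E := by
    by_contra hcon
    push Not at hcon
    have hsub : T ⊆ (univ : Finset (Fin 4 × Fin 4)).biUnion (fun p => {t ∈ T | p.1 ≠ p.2 ∧ rd (s t p.1) (s t p.2) ∈ E}) := by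
      intro t ht
      obtain ⟨i, j, hij, h⟩ := hcon t ht
      rw [mem_biUnion]
      exact ⟨(i, j), mem_univ _, mem_filter.2 ⟨ht, hij, h⟩⟩
    have h5 := card_le_card hsub
    have h6 : #((univ : Finset (Fin 4 × Fin 4)).biUnion (fun p => {t ∈ T | p.1 ≠ p.2 ∧ rd (s t p.1) (s t p.2) ∈ E})) ≤ ∑ _p : Fin 4 × Fin 4, #E := by
      refine card_biUnion_le.trans (sum_le_sum fun p _ => ?_)
      refine card_le_card_of_injOn (fun t => rd (s t p.1) (s t p.2)) (fun t ht => ?_) (fun t ht t' ht' h => ?_)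
      · exact (mem_filter.1 (mem_coe.1 ht)).2.2
      · exact hinj p.1 p.2 (mem_filter.1 (mem_coe.1 ht)).2.1 t (mem_filter.1 (mem_coe.1 ht)).1 t' (mem_filter.1 (mem_coe.1 ht')).1 h
    rw [sum_const, card_univ, Fintype.card_prod, Fintype.card_fin, smul_eq_mul] at h6
    omega
  -- the four integers
  have hcx1 : ∀ m : ℕ, cx c 1 1 (m + 1, m) = c := by
    intro m
    unfold cx
    push_cast
    rw [pow_one, pow_one, Int.ediv_one]
    ring
  have hcx2 : ∀ m : ℕ, cx c 1 1 (m, m + 1) = -c := by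
    intro m
    unfold cx
    push_cast
    rw [pow_one, pow_one, Int.ediv_one]
    ring
  have hpar : ∀ m : ℕ, ¬ (Odd (m + 1) ∧ Odd m) := by
    rintro m ⟨⟨x, hx⟩, ⟨y, hy⟩⟩
    omega
  have hCx : ∀ i j : Fin 4, i < j → Cx c 1 1 K₀ (rd (s t i) (s t j)) ∧ Cx c 1 1 K₀ (rd (s t j) (s t i)) := by
    intro i j hij
    obtain ⟨g, m, hg, hm, h5, h6, h7, h8, h9, h10, h11⟩ := hrd t htX i j hij
    rw [h10, h11]
    refine ⟨⟨by simp, ?_, fun p hp _ h1 => absurd (Nat.dvd_one.1 h1) hp.one_lt.ne'⟩, ⟨by simp, ?_, fun p hp _ h1 => absurd (Nat.dvd_one.1 h1) hp.one_lt.ne'⟩⟩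
    · rw [hcx1]
      exact ⟨Nat.succ_pos m, hm, hc0, h7, h9.symm, h8.symm, fun h => hpar m ⟨h.1, h.2.1⟩⟩
    · rw [hcx2]
      exact ⟨hm, Nat.succ_pos m, neg_ne_zero.2 hc0, h7.symm, h8.symm.neg_right, h9.symm.neg_right, fun h => hpar m ⟨h.2.1, h.1⟩⟩
  obtain ⟨i, j, hij, hG1, hG2⟩ := h3 (s t) (fun i => by rw [hs]; have := (h12 i).1; omega) (fun i j h => hinj0 (by rw [hs, hs] at h; omega)) (fun i j hij => by
    refine ⟨ht i j hij, ?_⟩
    rcases lt_or_gt_of_ne hij with h | h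
    · exact (hCx i j h).1
    · exact (hCx j i h).2)
  have hfin : ∀ i j : Fin 4, i < j → GoodX (min ε 1) c 1 1 (rd (s t i) (s t j)) → ∃ n : ℕ, 1 ≤ n ∧ (n : ℝ) ≤ (12 + 12 * K) * |(c : ℝ)| ^ ε ∧ Dens (1 - ε) (n + 1) n c := by
    intro i j hij hG
    obtain ⟨g, m, hg, hm, h5, h6, h7, h8, h9, h10, h11⟩ := hrd t htX i j hij
    refine ⟨m, hm, ?_, ?_⟩
    · have e1 := hs t i
      have e2 := (h12 i).2
      have e3 : m ≤ g * m := Nat.le_mul_of_pos_left m hg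
      have e4 : m ≤ 12 + 12 * t := by omega
      have e5 : (m : ℝ) ≤ 12 + 12 * t := by exact_mod_cast e4
      have e6 := (h00 t htX).1
      rw [Nat.cast_natAbs, Int.cast_abs] at e6
      have e7 : (1 : ℝ) ≤ |(c : ℝ)| ^ ε := by
        refine Real.one_le_rpow ?_ hε.le
        have e8 : (1 : ℝ) ≤ (c.natAbs : ℝ) := by exact_mod_cast hc1
        rwa [Nat.cast_natAbs, Int.cast_abs] at e8
      linarith
    · unfold GoodX at hG
      rw [h10, hcx1, pow_one, pow_one] at hG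
      exact E4_mono (by linarith [min_le_left ε 1]) hG
  rcases lt_or_gt_of_ne hij with h | h
  · exact hfin i j h hG1
  · exact hfin j i h hG2

end Pool.Agent.FG
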